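import Pool.Agent.H175F.Col

/-!
# COLOURING is polynomial on (gem, P_2 + P_3)-free graphs
-/

namespace Pool.Agent.Results.MP_31af1e_lc.GemP2P3

open Pool.Agent.H175G.Col Pool.Agent.H333R2.Col

/-- Q1, positive answer: COLOURING (graph and number of colours in the input) can be solved in
polynomial time on the graphs without induced gem and without induced `P_2 + P_3`. -/
theorem result :
    ColouringInPOn (fun _ G => ¬ Gem.IsIndContained G ∧ ¬ P2_P3.IsIndContained G) :=
  col_gem Pool.Agent.H175G.main_stmt

end Pool.Agent.Results.MP_31af1e_lc.GemP2P3
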